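import Pool.Agent.W46.HM.Stm

/-!
# Greedy decomposition of a measure into dyadic intervals (task HM-GR)
-/

set_option autoImplicit false

namespace Pool.Agent.W320.HM

open Finset Pool.Agent.W46.HM

/-- the mass of a dyadic interval -/
noncomputable def nu {n : ℕ} (μ : Fin n → ℝ) (j a : ℕ) : ℝ :=
  ∑ z : Fin n, if (z : ℕ) / 2 ^ j = a then μ z else 0

theorem nu_nonneg {n : ℕ} {μ : Fin n → ℝ} (h : ∀ s, 0 ≤ μ s) (j a : ℕ) : 0 ≤ nu μ j a := by
  unfold nu
  refine Finset.sum_nonneg fun z _ => ?_
  split_ifs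
  · exact h z
  · exact le_refl _

theorem nu_big {n : ℕ} (μ : Fin n → ℝ) (j a : ℕ) (ha : n ≤ a) : nu μ j a = 0 := by
  unfold nu
  refine Finset.sum_eq_zero fun z _ => ?_
  rw [if_neg]
  intro h
  have h1 : (z : ℕ) / 2 ^ j ≤ z := Nat.div_le_self _ _
  have h2 := z.2
  omega

/-- the sum over an interval -/
theorem mass {n : ℕ} (hn : 1 ≤ n) {μ : Fin n → ℝ} (hμ : ∀ s, 0 ≤ μ s) {ε : ℝ} (hε : 0 < ε)
    {w : ℝ} (hw : 0 ≤ w) {j : ℕ}
    (hmax : ∀ j' a', 2 ^ j' < 2 * n → nu μ j' a' ≤ w * (((2 : ℝ) ^ j') ^ ε / ((2 : ℝ) ^ j) ^ ε))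
    (c : ℕ) (ρ : ℝ) (hρ : 1 ≤ ρ) :
    ∑ z : Fin n, (if |((z : ℕ) : ℝ) - (c : ℝ)| ≤ ρ then μ z else 0) ≤
      3 * (2 * ρ / 2 ^ j) ^ ε * w := by
  have h2j : (0 : ℝ) < 2 ^ j := by positivity
  have hdiv : (2 * ρ / 2 ^ j) ^ ε = (2 * ρ) ^ ε / ((2 : ℝ) ^ j) ^ ε :=
    Real.div_rpow (by linarith) h2j.le ε
  have hD : 0 < ((2 : ℝ) ^ j) ^ ε := Real.rpow_pos_of_pos h2j ε
  -- the bound for one dyadic interval
  have hone : ∀ j' a', 2 ^ j' < 2 * n → ((2 : ℝ) ^ j') ≤ 2 * ρ →
      nu μ j' a' ≤ (2 * ρ / 2 ^ j) ^ ε * w := by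
    intro j' a' h1 h2
    refine (hmax j' a' h1).trans ?_
    rw [hdiv, mul_comm]
    refine mul_le_mul_of_nonneg_right ?_ hw
    exact div_le_div_of_nonneg_right (Real.rpow_le_rpow (by positivity) h2 hε.le) hD.le
  have hB : 0 ≤ (2 * ρ / 2 ^ j) ^ ε * w := mul_nonneg (Real.rpow_nonneg (by positivity) _) hw
  rcases le_or_gt (n : ℝ) ρ with h | h
  · -- everything lies in one dyadic interval
    obtain ⟨j', h1, h2⟩ : ∃ j' : ℕ, n ≤ 2 ^ j' ∧ 2 ^ j' < 2 * n := by
      have h3 : 2 ^ Nat.log 2 n ≤ n := Nat.pow_log_le_self 2 (by omega)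
      have h4 : n < 2 ^ (Nat.log 2 n + 1) := Nat.lt_pow_succ_log_self (by norm_num) n
      by_cases h5 : n = 2 ^ Nat.log 2 n
      · exact ⟨Nat.log 2 n, h5.le, by omega⟩
      · refine ⟨Nat.log 2 n + 1, h4.le, ?_⟩
        rw [pow_succ]
        omega
    have h3 : ∑ z : Fin n, (if |((z : ℕ) : ℝ) - (c : ℝ)| ≤ ρ then μ z else 0) ≤ nu μ j' 0 := by
      unfold nu
      refine Finset.sum_le_sum fun z _ => ?_
      have h4 : (z : ℕ) / 2 ^ j' = 0 := Nat.div_eq_of_lt (lt_of_lt_of_le z.2 h1)
      rw [if_pos h4]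
      split_ifs
      · exact le_refl _
      · exact hμ z
    have h4 : ((2 : ℝ) ^ j') ≤ 2 * ρ := by
      have h5 : ((2 ^ j' : ℕ) : ℝ) < ((2 * n : ℕ) : ℝ) := by exact_mod_cast h2
      push_cast at h5
      linarith
    have h5 := hone j' 0 h2 h4
    nlinarith
  · obtain ⟨k, hk1, hk2⟩ := exists_nat_pow_near hρ (by norm_num : (1 : ℝ) < 2)
    set j' := k + 1 with hj'
    have h1 : (2 : ℝ) ^ j' ≤ 2 * ρ := by
      rw [hj', pow_succ]
      linarith
    have h2 : 2 ^ j' < 2 * n := by
      have h3 : ((2 ^ j' : ℕ) : ℝ) < ((2 * n : ℕ) : ℝ) := by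
        push_cast
        linarith
      exact_mod_cast h3
    have h3 : ∑ z : Fin n, (if |((z : ℕ) : ℝ) - (c : ℝ)| ≤ ρ then μ z else 0) ≤
        nu μ j' (c / 2 ^ j' - 1) + nu μ j' (c / 2 ^ j') + nu μ j' (c / 2 ^ j' + 1) := by
      unfold nu
      rw [← Finset.sum_add_distrib, ← Finset.sum_add_distrib]
      refine Finset.sum_le_sum fun z _ => ?_
      have hz := hμ z
      by_cases h4 : |((z : ℕ) : ℝ) - (c : ℝ)| ≤ ρ
      · rw [if_pos h4]
        have h5 : |((z : ℕ) : ℝ) - (c : ℝ)| ≤ (2 : ℝ) ^ j' := h4.trans hk2.le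
        rw [abs_le] at h5
        have h6 : (c : ℕ) ≤ z + 2 ^ j' := by
          have : ((c : ℕ) : ℝ) ≤ ((z + 2 ^ j' : ℕ) : ℝ) := by push_cast; linarith
          exact_mod_cast this
        have h7 : (z : ℕ) ≤ c + 2 ^ j' := by
          have : ((z : ℕ) : ℝ) ≤ ((c + 2 ^ j' : ℕ) : ℝ) := by push_cast; linarith
          exact_mod_cast this
        have hpos : 0 < 2 ^ j' := by positivity
        have h8 : c / 2 ^ j' ≤ (z : ℕ) / 2 ^ j' + 1 := by
          rw [← Nat.add_div_right _ hpos]
          exact Nat.div_le_div_right h6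
        have h9 : (z : ℕ) / 2 ^ j' ≤ c / 2 ^ j' + 1 := by
          rw [← Nat.add_div_right _ hpos]
          exact Nat.div_le_div_right h7
        have key : ∀ x y : ℕ, y ≤ x + 1 → x ≤ y + 1 → x = y - 1 ∨ x = y ∨ x = y + 1 := by
          intros; omega
        have h10 : (z : ℕ) / 2 ^ j' = c / 2 ^ j' - 1 ∨ (z : ℕ) / 2 ^ j' = c / 2 ^ j' ∨
            (z : ℕ) / 2 ^ j' = c / 2 ^ j' + 1 := key _ _ h8 h9
        rcases h10 with h11 | h11 | h11
        · rw [if_pos h11]
          split_ifs <;> linarith
        · rw [if_pos h11]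
          split_ifs <;> linarith
        · rw [if_pos h11]
          split_ifs <;> linarith
      · rw [if_neg h4]
        split_ifs <;> linarith
    have h4 := hone j' (c / 2 ^ j' - 1) h2 h1
    have h5 := hone j' (c / 2 ^ j') h2 h1
    have h6 := hone j' (c / 2 ^ j' + 1) h2 h1
    linarith

theorem aux {ε : ℝ} (hε : 0 < ε) {n : ℕ} (hn : 1 ≤ n) : ∀ (N : ℕ) (μ : Fin n → ℝ),
    (∀ s, 0 ≤ μ s) → (univ.filter fun s => μ s ≠ 0).card ≤ N →
    ∃ lev tm : Fin n → ℕ, (∀ s, 2 ^ lev s < 2 * n) ∧
      (∀ s s', μ s ≠ 0 → μ s' ≠ 0 → (tm s = tm s' ↔ lb lev s = lb lev s')) ∧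
      ∀ s, μ s ≠ 0 → ∀ (c : ℕ) (ρ : ℝ), 1 ≤ ρ →
        ∑ z, (if tm s ≤ tm z ∧ |((z : ℕ) : ℝ) - (c : ℝ)| ≤ ρ then μ z else 0) ≤
          3 * (2 * ρ / 2 ^ lev s) ^ ε * ∑ z, (if tm z = tm s then μ z else 0) := by
  intro N
  induction N with
  | zero =>
    intro μ _ hc
    have h0 : ∀ s, μ s = 0 := by
      intro s
      by_contra h
      have h1 : s ∈ univ.filter fun s => μ s ≠ 0 := Finset.mem_filter.2 ⟨mem_univ _, h⟩
      have h2 : (univ.filter fun s => μ s ≠ 0).card = 0 := Nat.le_zero.1 hc
      rw [Finset.card_eq_zero] at h2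
      rw [h2] at h1
      exact absurd h1 (Finset.notMem_empty _)
    refine ⟨fun _ => 0, fun _ => 0, fun s => ?_, fun s s' h => absurd (h0 s) h,
      fun s h => absurd (h0 s) h⟩
    simp only [pow_zero]
    omega
  | succ N ih =>
    intro μ hμ hc
    by_cases hall : ∀ s, μ s = 0
    · refine ⟨fun _ => 0, fun _ => 0, fun s => ?_, fun s s' h => absurd (hall s) h,
        fun s h => absurd (hall s) h⟩
      simp only [pow_zero]
      omega
    · push Not at hall
      obtain ⟨s₀, hs₀⟩ := hall
      -- the best dyadic interval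
      obtain ⟨⟨j, a⟩, hja, hmax⟩ := Finset.exists_max_image
        (((range (2 * n)).filter fun j => 2 ^ j < 2 * n) ×ˢ range n)
        (fun p : ℕ × ℕ => nu μ p.1 p.2 / ((2 : ℝ) ^ p.1) ^ ε)
        ⟨(0, (s₀ : ℕ)), by
          rw [Finset.mem_product, Finset.mem_filter, Finset.mem_range, Finset.mem_range]
          exact ⟨⟨by omega, by simp only [pow_zero]; omega⟩, s₀.2⟩⟩
      rw [Finset.mem_product, Finset.mem_filter, Finset.mem_range, Finset.mem_range] at hja
      have hj : 2 ^ j < 2 * n := hja.1.2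
      have hpow : ∀ i : ℕ, 0 < ((2 : ℝ) ^ i) ^ ε := fun i => Real.rpow_pos_of_pos (by positivity) ε
      have hw0 : 0 ≤ nu μ j a := nu_nonneg hμ j a
      have hmax' : ∀ j' a', 2 ^ j' < 2 * n →
          nu μ j' a' ≤ nu μ j a * (((2 : ℝ) ^ j') ^ ε / ((2 : ℝ) ^ j) ^ ε) := by
        intro j' a' h1
        rcases lt_or_ge a' n with h2 | h2
        · have h3 := hmax (j', a') (by
            rw [Finset.mem_product, Finset.mem_filter, Finset.mem_range, Finset.mem_range]
            exact ⟨⟨lt_trans Nat.lt_two_pow_self h1, h1⟩, h2⟩)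
          simp only at h3
          rw [div_le_iff₀ (hpow j')] at h3
          refine h3.trans (le_of_eq ?_)
          ring
        · rw [nu_big μ j' a' h2]
          exact mul_nonneg hw0 (div_nonneg (hpow j').le (hpow j).le)
      have hwpos : 0 < nu μ j a := by
        have h1 := hmax' 0 (s₀ : ℕ) (by simp only [pow_zero]; omega)
        have h2 : 0 < nu μ 0 (s₀ : ℕ) := by
          unfold nu
          refine Finset.sum_pos' (fun z _ => ?_) ⟨s₀, mem_univ _, ?_⟩
          · split_ifs
            · exact hμ z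
            · exact le_refl _
          · rw [if_pos (by simp)]
            exact lt_of_le_of_ne (hμ s₀) (Ne.symm hs₀)
        by_contra hcon
        have h3 : nu μ j a = 0 := le_antisymm (not_lt.1 hcon) hw0
        rw [h3, zero_mul] at h1
        linarith
      -- the rest
      set μ' : Fin n → ℝ := fun z => if (z : ℕ) / 2 ^ j = a then 0 else μ z with hμ'
      have hin : ∀ z : Fin n, (z : ℕ) / 2 ^ j = a → μ' z = 0 := fun z hz => by
        rw [hμ']; exact if_pos hz
      have hout : ∀ z : Fin n, ¬ (z : ℕ) / 2 ^ j = a → μ' z = μ z := fun z hz => by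
        rw [hμ']; exact if_neg hz
      obtain ⟨lev', tm', g1, g2, g3⟩ := ih μ' (fun s => by
          by_cases hs : (s : ℕ) / 2 ^ j = a
          · rw [hin s hs]
          · rw [hout s hs]; exact hμ s) (by
          have hlt : (univ.filter fun s => μ' s ≠ 0).card < (univ.filter fun s => μ s ≠ 0).card := by
            apply Finset.card_lt_card
            rw [Finset.ssubset_iff_of_subset]
            · by_contra hcon
              push Not at hcon
              have h1 : nu μ j a = 0 := by
                unfold nu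
                refine Finset.sum_eq_zero fun z _ => ?_
                split_ifs with hz
                · by_contra hz2
                  have h2 := hcon z (Finset.mem_filter.2 ⟨mem_univ _, hz2⟩)
                  exact (Finset.mem_filter.1 h2).2 (hin z hz)
                · rfl
              linarith
            · intro z hz
              rw [Finset.mem_filter] at hz ⊢
              refine ⟨mem_univ _, fun h => hz.2 ?_⟩
              by_cases hs : (z : ℕ) / 2 ^ j = a
              · exact hin z hs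
              · rw [hout z hs]; exact h
          omega)
      refine ⟨fun z => if (z : ℕ) / 2 ^ j = a then j else lev' z,
        fun z => if (z : ℕ) / 2 ^ j = a then 0 else tm' z + 1, ?_, ?_, ?_⟩
      · intro s
        dsimp only
        split_ifs
        · exact hj
        · exact g1 s
      · intro s s' hs hs'
        unfold lb
        dsimp only
        by_cases h1 : (s : ℕ) / 2 ^ j = a
        · by_cases h2 : (s' : ℕ) / 2 ^ j = a
          · simp only [h1, h2, if_true]
          · simp only [h1, h2, if_true, if_false]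
            constructor
            · intro h; exact absurd h (Nat.succ_ne_zero _).symm
            · intro h
              exfalso
              obtain ⟨h3, h4⟩ := Prod.mk.inj h
              rw [← h3] at h4
              exact h2 h4.symm
        · by_cases h2 : (s' : ℕ) / 2 ^ j = a
          · simp only [h1, h2, if_true, if_false]
            constructor
            · intro h; exact absurd h (Nat.succ_ne_zero _)
            · intro h
              exfalso
              obtain ⟨h3, h4⟩ := Prod.mk.inj h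
              rw [h3] at h4
              exact h1 h4
          · simp only [h1, h2, if_false]
            have h3 := g2 s s' (by rw [hout s h1]; exact hs) (by rw [hout s' h2]; exact hs')
            unfold lb at h3
            rw [← h3]
            omega
      · intro s hs c ρ hρ
        dsimp only
        by_cases h1 : (s : ℕ) / 2 ^ j = a
        · simp only [if_pos h1]
          have h2 : ∑ z : Fin n, (if (if (z : ℕ) / 2 ^ j = a then 0 else tm' z + 1) = 0 then μ z
              else 0) = nu μ j a := by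
            unfold nu
            refine Finset.sum_congr rfl fun z _ => ?_
            by_cases h3 : (z : ℕ) / 2 ^ j = a
            · simp only [h3, if_true]
            · simp only [h3, Nat.succ_ne_zero, if_false]
          rw [h2]
          have h3 := mass hn hμ hε hw0 hmax' c ρ hρ
          simpa using h3
        · simp only [if_neg h1]
          have h2 := g3 s (by rw [hout s h1]; exact hs) c ρ hρ
          have h3 : ∑ z : Fin n, (if tm' s + 1 ≤ (if (z : ℕ) / 2 ^ j = a then 0 else tm' z + 1) ∧
              |((z : ℕ) : ℝ) - (c : ℝ)| ≤ ρ then μ z else 0) =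
              ∑ z : Fin n, (if tm' s ≤ tm' z ∧ |((z : ℕ) : ℝ) - (c : ℝ)| ≤ ρ then μ' z else 0) := by
            refine Finset.sum_congr rfl fun z _ => ?_
            by_cases h3 : (z : ℕ) / 2 ^ j = a
            · rw [if_pos h3, hin z h3, ite_self, if_neg]
              rintro ⟨h4, -⟩
              omega
            · rw [if_neg h3, hout z h3]
              simp only [Nat.add_le_add_iff_right]
          have h4 : ∑ z : Fin n, (if (if (z : ℕ) / 2 ^ j = a then 0 else tm' z + 1) = tm' s + 1
              then μ z else 0) = ∑ z : Fin n, (if tm' z = tm' s then μ' z else 0) := by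
            refine Finset.sum_congr rfl fun z _ => ?_
            by_cases h3 : (z : ℕ) / 2 ^ j = a
            · rw [if_pos h3, hin z h3, ite_self, if_neg]
              omega
            · rw [if_neg h3, hout z h3]
              simp only [Nat.add_right_cancel_iff]
          rw [h3, h4]
          exact h2

theorem GR : S_GR := by
  intro ε hε _ n hn μ hμ
  exact aux hε hn _ μ hμ le_rfl

end Pool.Agent.W320.HM
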